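import Mathlib
import Pool.Agent.V1199.AffBaire

open Set Filter Topology

namespace Pool.Agent.Results.MP_04557e_an.AffineAP

open Pool.Agent.V1199

/-- The approximation property of a normed space over `𝕜`. -/
def HasAP (𝕜 E : Type*) [RCLike 𝕜] [NormedAddCommGroup E] [NormedSpace 𝕜 E] : Prop :=
  ∀ C : Set E, IsCompact C → ∀ ε : ℝ, 0 < ε → ∃ T : E →L[𝕜] E,
    FiniteDimensional 𝕜 (LinearMap.range (T : E →ₗ[𝕜] E)) ∧ ∀ y ∈ C, ‖T y - y‖ < ε

/-- A map defined on the convex set `K` is affine. -/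
def IsAffine {V E : Type*} [AddCommGroup V] [Module ℝ V] [AddCommGroup E] [Module ℝ E] {K : Set V}
    (f : K → E) : Prop :=
  ∀ (x y z : K) (t : ℝ), 0 ≤ t → t ≤ 1 → (z : V) = t • (x : V) + (1 - t) • (y : V) →
    f z = t • f x + (1 - t) • f y

/-- `C₁(K, E)`: the maps of the first Baire class. -/
def C1 {V : Type*} [TopologicalSpace V] (K : Set V) (E : Type*) [TopologicalSpace E] :
    Set (K → E) :=
  {f | ∃ g : ℕ → K → E, (∀ n, Continuous (g n)) ∧ ∀ x, Tendsto (fun n => g n x) atTop (𝓝 (f x))}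

/-- `𝔄₁(K, E)`: pointwise limits of sequences of continuous affine maps. -/
def A1 {V : Type*} [AddCommGroup V] [Module ℝ V] [TopologicalSpace V] (K : Set V) (E : Type*)
    [AddCommGroup E] [Module ℝ E] [TopologicalSpace E] : Set (K → E) :=
  {f | ∃ a : ℕ → K → E, (∀ n, Continuous (a n)) ∧ (∀ n, IsAffine (a n)) ∧
    ∀ x, Tendsto (fun n => a n x) atTop (𝓝 (f x))}

/-- Let `E` be a real or complex Banach space with the approximation property and let `K` be a
compact convex subset of a Hausdorff locally convex space. Every affine map `K → E` of the first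
Baire class is the pointwise limit of a sequence of continuous affine maps. -/
theorem result {𝕜 E : Type*} [RCLike 𝕜] [NormedAddCommGroup E] [NormedSpace ℝ E]
    [NormedSpace 𝕜 E] [IsScalarTower ℝ 𝕜 E] (hE : HasAP 𝕜 E)
    {V : Type*} [AddCommGroup V] [Module ℝ V] [TopologicalSpace V]
    [IsTopologicalAddGroup V] [ContinuousSMul ℝ V] [LocallyConvexSpace ℝ V] [T2Space V]
    {K : Set V} (hK : IsCompact K) (hKc : Convex ℝ K) {f : K → E} (hf : IsAffine f)
    (hf1 : f ∈ C1 K E) : f ∈ A1 K E := by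
  have hKcomp : CompactSpace K := isCompact_iff_compactSpace.mp hK
  obtain ⟨g, hgc, hg⟩ := hf1
  have hAP : AffBaire.HasAP 𝕜 E := by
    intro C hC ε hε
    obtain ⟨T, hT1, hT2⟩ := hE C hC ε hε
    exact ⟨T, hT1, fun y hy => (hT2 y hy).le⟩
  obtain ⟨a, ha1, ha3⟩ := AffBaire.exists_affine_seq' hKc hAP (f := f) hf
    (fun n => ⟨g n, hgc n⟩) hg
  exact ⟨fun n => a n, fun n => (a n).continuous, ha1, ha3⟩

end Pool.Agent.Results.MP_04557e_an.AffineAP
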